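import Pool.Agent.Helper83.EIN2.Goals

/-!
# Project EIN2 (MP_06d934_gt), packet LINK: metrics and solutions
-/

set_option autoImplicit false

namespace Pool.Agent.Helper11.EIN2

open Finset Pool.Agent.Helper83.EIN Pool.Agent.Helper83.EIN2

/-- The permutation of the unknowns. -/
def prm (v : Fin 6 → ℝ) : Fin 6 → ℝ := ![v 0, v 2, v 4, v 3, v 5, v 1]

theorem prm_inj : Function.Injective prm := by
  intro v w h
  have h0 : v 0 = w 0 := congrFun h 0
  have h1 : v 2 = w 2 := congrFun h 1
  have h2 : v 4 = w 4 := congrFun h 2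
  have h3 : v 3 = w 3 := congrFun h 3
  have h4 : v 5 = w 5 := congrFun h 4
  have h5 : v 1 = w 1 := congrFun h 5
  funext i
  fin_cases i
  · exact h0
  · exact h5
  · exact h1
  · exact h3
  · exact h2
  · exact h4

theorem link : Pool.Agent.Helper83.EIN2.LINK := by
  intro a β t hβ0 hβ1 ht0 ht1
  set T : ℝ := t + (1 - t) * β with hT
  have hT0 : 0 < T := by
    have : 0 < (1 - t) * β := mul_pos (by linarith) hβ0
    linarith
  have hT' : T ≠ 0 := hT0.ne'
  have ea : T * (t * a / T) = t * a := by field_simp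
  have eb : T * (t * (1 - a) / T) = t * (1 - a) := by field_simp
  have ec : T * ((1 - t) * β / T) = (1 - t) * β := by field_simp
  have ed : 1 - T = (1 - t) * (1 - β) := by rw [hT]; ring
  have h1 := ncard_eq (a := t * a / T) (b := t * (1 - a) / T) (c := (1 - t) * β / T) (t := T)
  rw [ea, eb, ec, ed] at h1
  rw [h1]
  have himg : {v : Fin 6 → ℝ | Sol (t * a / T) (t * (1 - a) / T) ((1 - t) * β / T) T v} =
      prm '' {v : Fin 6 → ℝ | Sol2 a β t v} := by
    ext w
    constructor
    · intro hw
      have hw' : Sol (t * a / T) (t * (1 - a) / T) ((1 - t) * β / T) T w := hw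
      refine ⟨![w 0, w 5, w 1, w 3, w 2, w 4], ?_, ?_⟩
      · have e0 := hw'.e0
        have e1 := hw'.e1
        have e2 := hw'.e2
        have e3 := hw'.e3
        have e4 := hw'.e4
        have e5 := hw'.e5
        rw [ec, ed] at e0
        rw [eb, ed] at e1
        rw [ea, ed] at e2
        rw [eb, ec] at e3
        rw [ea, ec] at e4
        rw [ea, eb] at e5
        refine ⟨?_, ?_, ?_, ?_, ?_, ?_, ?_⟩
        · intro i
          fin_cases i
          · exact hw'.pos 0
          · exact hw'.pos 5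
          · exact hw'.pos 1
          · exact hw'.pos 3
          · exact hw'.pos 2
          · exact hw'.pos 4
        · exact e0
        · exact e5
        · show w 1 = 1 - t * (1 - a) * cs (w 0) (w 2) (w 1) -
            (1 - t) * (1 - β) * cs (w 5) (w 3) (w 1)
          rw [Pool.Agent.Helper83.EIN2.cs_comm (w 5) (w 3)]
          exact e1
        · show w 3 = 1 - t * (1 - a) * cs (w 0) (w 4) (w 3) - (1 - t) * β * cs (w 5) (w 1) (w 3)
          rw [Pool.Agent.Helper83.EIN2.cs_comm (w 5) (w 1)]
          exact e3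
        · show w 2 = 1 - t * a * cs (w 0) (w 1) (w 2) - (1 - t) * (1 - β) * cs (w 5) (w 4) (w 2)
          rw [Pool.Agent.Helper83.EIN2.cs_comm (w 5) (w 4)]
          exact e2
        · show w 4 = 1 - t * a * cs (w 0) (w 3) (w 4) - (1 - t) * β * cs (w 5) (w 2) (w 4)
          rw [Pool.Agent.Helper83.EIN2.cs_comm (w 5) (w 2)]
          exact e4
      · funext i
        fin_cases i <;> rfl
    · rintro ⟨v, hv, rfl⟩
      have hv' : Sol2 a β t v := hv
      show Sol (t * a / T) (t * (1 - a) / T) ((1 - t) * β / T) T (prm v)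
      refine ⟨?_, ?_, ?_, ?_, ?_, ?_, ?_⟩
      · intro i
        fin_cases i
        · exact hv'.pos 0
        · exact hv'.pos 2
        · exact hv'.pos 4
        · exact hv'.pos 3
        · exact hv'.pos 5
        · exact hv'.pos 1
      · rw [ec, ed]
        exact hv'.e0
      · rw [eb, ed]
        show v 2 = 1 - t * (1 - a) * cs (v 0) (v 4) (v 2) - (1 - t) * (1 - β) * cs (v 3) (v 1) (v 2)
        rw [Pool.Agent.Helper83.EIN2.cs_comm (v 3) (v 1)]
        exact hv'.e2
      · rw [ea, ed]
        show v 4 = 1 - t * a * cs (v 0) (v 2) (v 4) - (1 - t) * (1 - β) * cs (v 5) (v 1) (v 4)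
        rw [Pool.Agent.Helper83.EIN2.cs_comm (v 5) (v 1)]
        exact hv'.e4
      · rw [eb, ec]
        show v 3 = 1 - t * (1 - a) * cs (v 0) (v 5) (v 3) - (1 - t) * β * cs (v 2) (v 1) (v 3)
        rw [Pool.Agent.Helper83.EIN2.cs_comm (v 2) (v 1)]
        exact hv'.e3
      · rw [ea, ec]
        show v 5 = 1 - t * a * cs (v 0) (v 3) (v 5) - (1 - t) * β * cs (v 4) (v 1) (v 5)
        rw [Pool.Agent.Helper83.EIN2.cs_comm (v 4) (v 1)]
        exact hv'.e5
      · rw [ea, eb]
        exact hv'.e1
  rw [himg, Set.ncard_image_of_injective _ prm_inj]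

end Pool.Agent.Helper11.EIN2
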